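import Mathlib

/-!
Local factorisation of monic polynomials with analytic coefficients: a factorisation of the
polynomial at `s = 0` into coprime monic factors extends to a neighbourhood of `0`.
-/

open Polynomial Filter Topology

namespace Pool.Agent.H55.N2

/-- The monic polynomial of degree `m` with lower coefficients `a j`. -/
noncomputable def Pm (m : ℕ) (a : ℕ → ℂ) : ℂ[X] := X ^ m + ∑ j ∈ Finset.range m, C (a j) * X ^ j

theorem low_degree (m : ℕ) (a : ℕ → ℂ) :
    (∑ j ∈ Finset.range m, C (a j) * X ^ j : ℂ[X]).degree < m := by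
  rw [Polynomial.degree_lt_iff_coeff_zero]
  intro n hn
  rw [finsetSum_coeff]
  apply Finset.sum_eq_zero
  intro j hj
  have := Finset.mem_range.1 hj
  rw [coeff_C_mul, coeff_X_pow, if_neg (by omega), mul_zero]

theorem Pm_monic (m : ℕ) (a : ℕ → ℂ) : (Pm m a).Monic :=
  monic_X_pow_add (low_degree m a)

theorem Pm_natDegree (m : ℕ) (a : ℕ → ℂ) : (Pm m a).natDegree = m := by
  have : (Pm m a).degree = m := by
    rw [Pm, degree_add_eq_left_of_degree_lt (by rw [degree_X_pow]; exact low_degree m a),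
      degree_X_pow]
  exact natDegree_eq_of_degree_eq_some this

theorem Pm_coeff (m : ℕ) (a : ℕ → ℂ) (n : ℕ) (hn : n < m) : (Pm m a).coeff n = a n := by
  rw [Pm, coeff_add, coeff_X_pow, if_neg (by omega), zero_add, finsetSum_coeff,
    Finset.sum_eq_single n]
  · rw [coeff_C_mul, coeff_X_pow, if_pos rfl, mul_one]
  · intro j _ hj
    rw [coeff_C_mul, coeff_X_pow, if_neg (Ne.symm hj), mul_zero]
  · intro h
    exact absurd (Finset.mem_range.2 hn) h

theorem Pm_of_monic {p : ℂ[X]} (hp : p.Monic) : p = Pm p.natDegree p.coeff :=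
  hp.as_sum

theorem Pm_congr {m : ℕ} {a b : ℕ → ℂ} (h : ∀ j < m, a j = b j) : Pm m a = Pm m b := by
  rw [Pm, Pm]
  congr 1
  apply Finset.sum_congr rfl
  intro j hj
  rw [h j (Finset.mem_range.1 hj)]

/-- monic polynomials of the same degree with the same lower coefficients are equal -/
theorem monic_ext {p q : ℂ[X]} {m : ℕ} (hp : p.Monic) (hq : q.Monic) (hpm : p.natDegree = m)
    (hqm : q.natDegree = m) (h : ∀ j < m, p.coeff j = q.coeff j) : p = q := by
  rw [Pm_of_monic hp, Pm_of_monic hq, hpm, hqm]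
  exact Pm_congr h

/-- extension by zero -/
def ex (k : ℕ) (v : Fin k → ℂ) : ℕ → ℂ := fun j => if h : j < k then v ⟨j, h⟩ else 0

noncomputable def lin (k : ℕ) (v : Fin k → ℂ) : ℂ[X] :=
  ∑ j ∈ Finset.range k, C (ex k v j) * X ^ j

theorem lin_degree (k : ℕ) (v : Fin k → ℂ) : (lin k v).degree < k := low_degree k _

theorem lin_coeff (k : ℕ) (v : Fin k → ℂ) (n : ℕ) : (lin k v).coeff n = ex k v n := by
  rw [lin, finsetSum_coeff]
  by_cases hn : n < k
  · rw [Finset.sum_eq_single n]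
    · rw [coeff_C_mul, coeff_X_pow, if_pos rfl, mul_one]
    · intro j _ hj
      rw [coeff_C_mul, coeff_X_pow, if_neg (Ne.symm hj), mul_zero]
    · intro h
      exact absurd (Finset.mem_range.2 hn) h
  · rw [ex, dif_neg hn]
    apply Finset.sum_eq_zero
    intro j hj
    have := Finset.mem_range.1 hj
    rw [coeff_C_mul, coeff_X_pow, if_neg (by omega), mul_zero]

theorem lin_eq_zero {k : ℕ} {v : Fin k → ℂ} (h : lin k v = 0) : v = 0 := by
  funext i
  have := lin_coeff k v i
  rw [h, coeff_zero, ex, dif_pos i.2] at this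
  exact this.symm

theorem lin_add (k : ℕ) (v w : Fin k → ℂ) : lin k (v + w) = lin k v + lin k w := by
  ext n
  rw [coeff_add, lin_coeff, lin_coeff, lin_coeff]
  by_cases hn : n < k
  · simp [ex, hn]
  · simp [ex, hn]

theorem lin_smul (k : ℕ) (t : ℂ) (v : Fin k → ℂ) : lin k (t • v) = C t * lin k v := by
  ext n
  rw [coeff_C_mul, lin_coeff, lin_coeff]
  by_cases hn : n < k
  · simp [ex, hn]
  · simp [ex, hn]

theorem ex_contDiff (k n : ℕ) : ContDiff ℂ 1 (fun v : Fin k → ℂ => ex k v n) := by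
  by_cases hn : n < k
  · simp only [ex, hn, dite_true]
    fun_prop
  · simp only [ex, hn, dite_false]
    fun_prop

/-- the multiplication map on coefficients -/
noncomputable def Mu (k l : ℕ) (x : (Fin k → ℂ) × (Fin l → ℂ)) : Fin (k + l) → ℂ :=
  fun j => (Pm k (ex k x.1) * Pm l (ex l x.2)).coeff j

theorem Pm_ex (k : ℕ) (v : Fin k → ℂ) : Pm k (ex k v) = X ^ k + lin k v := rfl

theorem Mu_contDiff (k l : ℕ) : ContDiff ℂ 1 (Mu k l) := by
  rw [contDiff_pi]
  intro j
  simp only [Mu, Pm_ex, coeff_mul, coeff_add, lin_coeff]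
  apply ContDiff.sum
  intro i _
  apply ContDiff.mul
  · apply ContDiff.add contDiff_const
    exact (ex_contDiff k _).comp contDiff_fst
  · apply ContDiff.add contDiff_const
    exact (ex_contDiff l _).comp contDiff_snd

theorem quad_deriv (c₀ c₁ c₂ : ℂ) : HasDerivAt (fun t : ℂ => c₀ + t * c₁ + t ^ 2 * c₂) c₁ 0 := by
  have h1 : HasDerivAt (fun t : ℂ => t * c₁) (1 * c₁) 0 := (hasDerivAt_id (0 : ℂ)).mul_const c₁
  have h2 : HasDerivAt (fun t : ℂ => c₀ + t * c₁) (1 * c₁) 0 := h1.const_add c₀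
  have h3 : HasDerivAt (fun t : ℂ => t ^ 2) ((2 : ℕ) * (0 : ℂ) ^ (2 - 1)) 0 := hasDerivAt_pow 2 (0 : ℂ)
  have h4 := h2.add (h3.mul_const c₂)
  have e : (1 * c₁ + ((2 : ℕ) * (0 : ℂ) ^ (2 - 1)) * c₂) = c₁ := by norm_num
  rw [e] at h4
  exact h4

/-- the directional derivative of the multiplication map -/
theorem Mu_deriv (k l : ℕ) (x y : (Fin k → ℂ) × (Fin l → ℂ)) (j : Fin (k + l)) :
    fderiv ℂ (Mu k l) x y j
      = (Pm k (ex k x.1) * lin l y.2 + lin k y.1 * Pm l (ex l x.2)).coeff j := by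
  have hd : HasFDerivAt (Mu k l) (fderiv ℂ (Mu k l) x) x :=
    ((Mu_contDiff k l).differentiable (by norm_num) x).hasFDerivAt
  -- the line
  have hline : HasDerivAt (fun t : ℂ => x + t • y) y 0 := by
    have h1 : HasDerivAt (fun t : ℂ => t • y) ((1 : ℂ) • y) 0 := (hasDerivAt_id (0 : ℂ)).smul_const y
    rw [one_smul] at h1
    exact h1.const_add x
  have h2 : HasDerivAt (fun t : ℂ => Mu k l (x + t • y)) (fderiv ℂ (Mu k l) x y) 0 := by
    have h3 : HasFDerivAt (Mu k l) (fderiv ℂ (Mu k l) x) (x + (0 : ℂ) • y) := by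
      rw [zero_smul, add_zero]; exact hd
    exact h3.comp_hasDerivAt 0 hline
  have h4 : HasDerivAt (fun t : ℂ => Mu k l (x + t • y) j) (fderiv ℂ (Mu k l) x y j) 0 :=
    (hasDerivAt_pi.1 h2) j
  -- the explicit formula
  have h5 : (fun t : ℂ => Mu k l (x + t • y) j) = fun t : ℂ =>
      (Pm k (ex k x.1) * Pm l (ex l x.2)).coeff j
        + t * (Pm k (ex k x.1) * lin l y.2 + lin k y.1 * Pm l (ex l x.2)).coeff j
        + t ^ 2 * (lin k y.1 * lin l y.2).coeff j := by
    funext t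
    have e : Pm k (ex k (x + t • y).1) * Pm l (ex l (x + t • y).2)
        = Pm k (ex k x.1) * Pm l (ex l x.2)
          + C t * (Pm k (ex k x.1) * lin l y.2 + lin k y.1 * Pm l (ex l x.2))
          + C (t ^ 2) * (lin k y.1 * lin l y.2) := by
      have e1 : (x + t • y).1 = x.1 + t • y.1 := rfl
      have e2 : (x + t • y).2 = x.2 + t • y.2 := rfl
      rw [e1, e2, Pm_ex, Pm_ex, Pm_ex, Pm_ex, lin_add, lin_add, lin_smul, lin_smul, C_pow]
      ring
    rw [Mu, e, coeff_add, coeff_add, coeff_C_mul, coeff_C_mul]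
  rw [h5] at h4
  have h6 : HasDerivAt (fun t : ℂ =>
      (Pm k (ex k x.1) * Pm l (ex l x.2)).coeff j
        + t * (Pm k (ex k x.1) * lin l y.2 + lin k y.1 * Pm l (ex l x.2)).coeff j
        + t ^ 2 * (lin k y.1 * lin l y.2).coeff j)
      ((Pm k (ex k x.1) * lin l y.2 + lin k y.1 * Pm l (ex l x.2)).coeff j) 0 := by
    exact quad_deriv _ _ _
  exact h4.unique h6

theorem Mu_inj {k l : ℕ} {x : (Fin k → ℂ) × (Fin l → ℂ)}
    (hc : IsCoprime (Pm k (ex k x.1)) (Pm l (ex l x.2))) :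
    Function.Injective (fderiv ℂ (Mu k l) x) := by
  rw [injective_iff_map_eq_zero]
  intro y hy
  have h1 : Pm k (ex k x.1) * lin l y.2 + lin k y.1 * Pm l (ex l x.2) = 0 := by
    ext n
    rw [coeff_zero]
    by_cases hn : n < k + l
    · have := Mu_deriv k l x y ⟨n, hn⟩
      rw [hy] at this
      exact this.symm
    · apply coeff_eq_zero_of_degree_lt
      have d1 : (Pm k (ex k x.1) * lin l y.2).degree < (k + l : ℕ) := by
        by_cases h0 : lin l y.2 = 0
        · rw [h0, mul_zero, degree_zero]; exact WithBot.bot_lt_coe _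
        rw [degree_mul, degree_eq_natDegree (Pm_monic k _).ne_zero, Pm_natDegree,
          degree_eq_natDegree h0]
        have := lin_degree l y.2
        rw [degree_eq_natDegree h0] at this
        have h3 : (lin l y.2).natDegree < l := by exact_mod_cast this
        exact_mod_cast (by omega : k + (lin l y.2).natDegree < k + l)
      have d2 : (lin k y.1 * Pm l (ex l x.2)).degree < (k + l : ℕ) := by
        by_cases h0 : lin k y.1 = 0
        · rw [h0, zero_mul, degree_zero]; exact WithBot.bot_lt_coe _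
        rw [degree_mul, degree_eq_natDegree (Pm_monic l _).ne_zero, Pm_natDegree,
          degree_eq_natDegree h0]
        have := lin_degree k y.1
        rw [degree_eq_natDegree h0] at this
        have h3 : (lin k y.1).natDegree < k := by exact_mod_cast this
        exact_mod_cast (by omega : (lin k y.1).natDegree + l < k + l)
      calc (Pm k (ex k x.1) * lin l y.2 + lin k y.1 * Pm l (ex l x.2)).degree
          ≤ max _ _ := degree_add_le _ _
        _ < (k + l : ℕ) := max_lt d1 d2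
        _ ≤ n := by exact_mod_cast (by omega : k + l ≤ n)
  have h2 : Pm k (ex k x.1) ∣ lin k y.1 * Pm l (ex l x.2) := by
    refine ⟨-lin l y.2, ?_⟩
    linear_combination h1
  have h3 : Pm k (ex k x.1) ∣ lin k y.1 := hc.dvd_of_dvd_mul_right h2
  have h4 : lin k y.1 = 0 := by
    apply eq_zero_of_dvd_of_degree_lt h3
    rw [degree_eq_natDegree (Pm_monic k _).ne_zero, Pm_natDegree]
    exact lin_degree k y.1
  have h5 : lin l y.2 = 0 := by
    rw [h4, zero_mul, add_zero] at h1
    exact (mul_eq_zero.1 h1).resolve_left (Pm_monic k _).ne_zero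
  exact Prod.ext (lin_eq_zero h4) (lin_eq_zero h5)

theorem local_fac {k l : ℕ} {A B : ℂ[X]} (hA : A.Monic) (hB : B.Monic) (hAk : A.natDegree = k)
    (hBl : B.natDegree = l) (hc : IsCoprime A B) {f : ℕ → ℂ → ℂ}
    (hf : ∀ j < k + l, AnalyticAt ℂ (f j) 0) (h0 : Pm (k + l) (fun j => f j 0) = A * B) :
    ∃ α β : ℕ → ℂ → ℂ, (∀ j, AnalyticAt ℂ (α j) 0) ∧ (∀ j, AnalyticAt ℂ (β j) 0) ∧
      ∀ᶠ s in 𝓝 (0 : ℂ), Pm (k + l) (fun j => f j s)
        = Pm k (fun j => α j s) * Pm l (fun j => β j s) := by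
  set x : (Fin k → ℂ) × (Fin l → ℂ) := (fun j => A.coeff j, fun j => B.coeff j) with hx
  have hxA : Pm k (ex k x.1) = A := by
    rw [Pm_of_monic hA, hAk]
    apply Pm_congr
    intro j hj
    simp [ex, hj, hx]
  have hxB : Pm l (ex l x.2) = B := by
    rw [Pm_of_monic hB, hBl]
    apply Pm_congr
    intro j hj
    simp [ex, hj, hx]
  have hinj : Function.Injective (fderiv ℂ (Mu k l) x) := Mu_inj (by rw [hxA, hxB]; exact hc)
  have hfr : Module.finrank ℂ ((Fin k → ℂ) × (Fin l → ℂ)) = Module.finrank ℂ (Fin (k + l) → ℂ) := by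
    rw [Module.finrank_prod, Module.finrank_fin_fun, Module.finrank_fin_fun, Module.finrank_fin_fun]
  set L : ((Fin k → ℂ) × (Fin l → ℂ)) ≃L[ℂ] (Fin (k + l) → ℂ) :=
    (LinearEquiv.ofInjectiveOfFinrankEq ((fderiv ℂ (Mu k l) x : _ →L[ℂ] _) :
      ((Fin k → ℂ) × (Fin l → ℂ)) →ₗ[ℂ] (Fin (k + l) → ℂ)) hinj hfr).toContinuousLinearEquiv with hL
  have hLe : (L : ((Fin k → ℂ) × (Fin l → ℂ)) →L[ℂ] (Fin (k + l) → ℂ)) = fderiv ℂ (Mu k l) x := by
    ext y
    all_goals rfl
  have hcd : ContDiffAt ℂ 1 (Mu k l) x := (Mu_contDiff k l).contDiffAt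
  have hd : HasFDerivAt (Mu k l) (L : ((Fin k → ℂ) × (Fin l → ℂ)) →L[ℂ] (Fin (k + l) → ℂ)) x := by
    rw [hLe]
    exact (hcd.differentiableAt (by norm_num)).hasFDerivAt
  set G := hcd.localInverse hd (by norm_num) with hG
  have hGc : ContDiffAt ℂ 1 G (Mu k l x) := hcd.to_localInverse hd (by norm_num)
  have hGr : ∀ᶠ y in 𝓝 (Mu k l x), Mu k l (G y) = y :=
    (hcd.hasStrictFDerivAt' hd (by norm_num)).eventually_right_inverse
  set F : ℂ → Fin (k + l) → ℂ := fun s j => f j s with hF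
  have hF0 : F 0 = Mu k l x := by
    funext j
    rw [Mu, hxA, hxB, ← h0, Pm_coeff _ _ _ j.2]
  have hFa : AnalyticAt ℂ F 0 := by
    rw [hF]
    exact AnalyticAt.pi (fun j => hf j j.2)
  have hGF : AnalyticAt ℂ (fun s => G (F s)) 0 := by
    have h1 : ∀ᶠ y in 𝓝 (Mu k l x), ContDiffAt ℂ 1 G y :=
      hGc.eventually (by norm_num)
    rw [Complex.analyticAt_iff_eventually_differentiableAt]
    have h2 : ∀ᶠ s in 𝓝 (0 : ℂ), ContDiffAt ℂ 1 G (F s) := by
      have : Tendsto F (𝓝 0) (𝓝 (Mu k l x)) := by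
        rw [← hF0]; exact hFa.continuousAt
      exact this.eventually h1
    have h3 : ∀ᶠ s in 𝓝 (0 : ℂ), DifferentiableAt ℂ F s := by
      filter_upwards [hFa.eventually_analyticAt] with s hs using hs.differentiableAt
    filter_upwards [h2, h3] with s hs2 hs3
    exact (hs2.differentiableAt (by norm_num)).comp s hs3
  have hG1 : ∀ j : Fin k, AnalyticAt ℂ (fun s => (G (F s)).1 j) 0 := by
    intro j
    have : AnalyticAt ℂ (fun y : (Fin k → ℂ) × (Fin l → ℂ) => y.1 j) (G (F 0)) :=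
      ((ContinuousLinearMap.proj (R := ℂ) j).comp
        (ContinuousLinearMap.fst ℂ (Fin k → ℂ) (Fin l → ℂ))).analyticAt _
    exact AnalyticAt.comp_of_eq' this hGF rfl
  have hG2 : ∀ j : Fin l, AnalyticAt ℂ (fun s => (G (F s)).2 j) 0 := by
    intro j
    have : AnalyticAt ℂ (fun y : (Fin k → ℂ) × (Fin l → ℂ) => y.2 j) (G (F 0)) :=
      ((ContinuousLinearMap.proj (R := ℂ) j).comp
        (ContinuousLinearMap.snd ℂ (Fin k → ℂ) (Fin l → ℂ))).analyticAt _
    exact AnalyticAt.comp_of_eq' this hGF rfl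
  refine ⟨fun j s => ex k (G (F s)).1 j, fun j s => ex l (G (F s)).2 j, ?_, ?_, ?_⟩
  · intro j
    by_cases hj : j < k
    · simp only [ex, hj, dite_true]
      exact hG1 ⟨j, hj⟩
    · simp only [ex, hj, dite_false]
      exact analyticAt_const
  · intro j
    by_cases hj : j < l
    · simp only [ex, hj, dite_true]
      exact hG2 ⟨j, hj⟩
    · simp only [ex, hj, dite_false]
      exact analyticAt_const
  · have h2 : ∀ᶠ s in 𝓝 (0 : ℂ), Mu k l (G (F s)) = F s := by
      have : Tendsto F (𝓝 0) (𝓝 (Mu k l x)) := by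
        rw [← hF0]; exact hFa.continuousAt
      exact this.eventually hGr
    filter_upwards [h2] with s hs
    apply monic_ext (m := k + l) (Pm_monic _ _) ((Pm_monic _ _).mul (Pm_monic _ _))
      (Pm_natDegree _ _)
      (by rw [(Pm_monic _ _).natDegree_mul (Pm_monic _ _), Pm_natDegree, Pm_natDegree])
    intro j hj
    rw [Pm_coeff _ _ _ hj]
    have := congrFun hs ⟨j, hj⟩
    exact this.symm

end Pool.Agent.H55.N2
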