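import Pool.Agent.H55.N2.Fac

/-!
The theorem of Newton and Puiseux for monic polynomials whose coefficients are meromorphic
germs at `0`.
-/

open Polynomial Filter Topology

namespace Pool.Agent.H55.N2

/-- product of linear factors -/
noncomputable def PL (L : List (ℂ → ℂ)) (s : ℂ) : ℂ[X] := (L.map (fun f => X - C (f s))).prod

theorem PL_append (L L' : List (ℂ → ℂ)) (s : ℂ) : PL (L ++ L') s = PL L s * PL L' s := by
  simp [PL]

theorem PL_map (L : List (ℂ → ℂ)) (h : (ℂ → ℂ) → (ℂ → ℂ)) (s : ℂ) :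
    PL (L.map h) s = (L.map (fun f => X - C (h f s))).prod := by
  simp [PL, Function.comp_def]

theorem PL_monic (L : List (ℂ → ℂ)) (s : ℂ) : (PL L s).Monic := by
  induction L with
  | nil => simp [PL]
  | cons f L ih =>
    have : PL (f :: L) s = (X - C (f s)) * PL L s := by simp [PL]
    rw [this]
    exact (monic_X_sub_C _).mul ih

theorem PL_natDegree (L : List (ℂ → ℂ)) (s : ℂ) : (PL L s).natDegree = L.length := by
  induction L with
  | nil => simp [PL]
  | cons f L ih =>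
    have : PL (f :: L) s = (X - C (f s)) * PL L s := by simp [PL]
    rw [this, (monic_X_sub_C _).natDegree_mul (PL_monic _ _), ih, natDegree_X_sub_C,
      List.length_cons]
    omega

theorem tendsto_pow_punct {N : ℕ} (hN : 1 ≤ N) :
    Tendsto (fun s : ℂ => s ^ N) (𝓝[≠] 0) (𝓝[≠] 0) := by
  apply tendsto_nhdsWithin_iff.2 ⟨?_, ?_⟩
  · have : Tendsto (fun s : ℂ => s ^ N) (𝓝 0) (𝓝 (0 ^ N)) := (continuous_pow N).tendsto 0
    rw [zero_pow (by omega)] at this
    exact this.mono_left nhdsWithin_le_nhds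
  · filter_upwards [self_mem_nhdsWithin] with s hs
    exact pow_ne_zero _ hs

theorem mer_pow {f : ℂ → ℂ} (hf : MeromorphicAt f 0) {N : ℕ} (hN : 1 ≤ N) :
    MeromorphicAt (fun s => f (s ^ N)) 0 := by
  have h1 : MeromorphicAt f ((fun s : ℂ => s ^ N) 0) := by
    simpa [zero_pow (by omega : N ≠ 0)] using hf
  exact h1.comp_analyticAt (g := fun s : ℂ => s ^ N) (by fun_prop)

theorem scale_Pm (m : ℕ) (b : ℕ → ℂ) (t : ℂ) :
    Pm m (fun j => t ^ (m - j) * b j) = (Pm m b).scaleRoots t := by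
  apply monic_ext (m := m) (Pm_monic _ _) ((monic_scaleRoots_iff t).2 (Pm_monic _ _))
    (Pm_natDegree _ _) (by rw [natDegree_scaleRoots, Pm_natDegree])
  intro j hj
  rw [coeff_scaleRoots, Pm_coeff _ _ _ hj, Pm_coeff _ _ _ hj, Pm_natDegree]
  ring

theorem scale_PL (L : List (ℂ → ℂ)) (s t : ℂ) :
    (PL L s).scaleRoots t = (L.map (fun f => X - C (t * f s))).prod := by
  induction L with
  | nil => simp [PL, one_scaleRoots]
  | cons f L ih =>
    have : PL (f :: L) s = (X - C (f s)) * PL L s := by simp [PL]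
    rw [this, mul_scaleRoots_of_noZeroDivisors, ih, X_sub_C_scaleRoots, List.map_cons,
      List.prod_cons, mul_comm (f s) t]

/-- Normalisation of the Newton polygon. -/
theorem exists_norm {m : ℕ} (hm : 1 ≤ m) {a : ℕ → ℂ → ℂ} (ha : ∀ j < m, MeromorphicAt (a j) 0)
    (hne : ∃ j < m, meromorphicOrderAt (a j) 0 ≠ ⊤)
    (h1 : ∀ᶠ s in 𝓝[≠] (0 : ℂ), a (m - 1) s = 0) :
    ∃ (M : ℕ) (u : ℤ) (b : ℕ → ℂ → ℂ), 1 ≤ M ∧ (∀ j < m, AnalyticAt ℂ (b j) 0) ∧
      (∀ᶠ s in 𝓝[≠] (0 : ℂ), ∀ j < m, a j (s ^ M) = (s ^ u) ^ (m - j) * b j s) ∧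
      (∃ j < m, b j 0 ≠ 0) ∧ b (m - 1) 0 = 0 := by
  classical
  set J : Finset ℕ := (Finset.range m).filter (fun j => meromorphicOrderAt (a j) 0 ≠ ⊤) with hJ
  have hJne : J.Nonempty := by
    obtain ⟨j, hj, hj'⟩ := hne
    exact ⟨j, Finset.mem_filter.2 ⟨Finset.mem_range.2 hj, hj'⟩⟩
  have hJm : ∀ j ∈ J, j < m := fun j hj => Finset.mem_range.1 (Finset.mem_filter.1 hj).1
  have hex : ∀ j, ∃ (n : ℤ) (g : ℂ → ℂ), j ∈ J → (AnalyticAt ℂ g 0 ∧ g 0 ≠ 0 ∧
      ∀ᶠ s in 𝓝[≠] (0 : ℂ), a j s = s ^ n * g s) := by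
    intro j
    by_cases hj : j ∈ J
    · have ho := (Finset.mem_filter.1 hj).2
      obtain ⟨n, hn⟩ := WithTop.ne_top_iff_exists.1 ho
      obtain ⟨g, hg, hg0, hgs⟩ := (meromorphicOrderAt_eq_int_iff (ha j (hJm j hj))).1 hn.symm
      refine ⟨n, g, fun _ => ⟨hg, hg0, ?_⟩⟩
      filter_upwards [hgs] with s hs
      simpa using hs
    · exact ⟨0, 0, fun h => absurd h hj⟩
  choose n g hng using hex
  set M : ℕ := m.factorial with hM
  have hM1 : 1 ≤ M := Nat.factorial_pos m
  have hdiv : ∀ j < m, ((m - j : ℕ) : ℤ) * ((M / (m - j) : ℕ) : ℤ) = M := by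
    intro j hj
    have : (m - j) ∣ M := Nat.dvd_factorial (by omega) (by omega)
    exact_mod_cast Nat.mul_div_cancel' this
  obtain ⟨j0, hj0, hmin⟩ := Finset.exists_min_image J (fun j => n j * ((M / (m - j) : ℕ) : ℤ)) hJne
  set u : ℤ := n j0 * ((M / (m - j0) : ℕ) : ℤ) with hu
  set e : ℕ → ℤ := fun j => (M : ℤ) * n j - u * ((m - j : ℕ) : ℤ) with he
  have he0 : ∀ j ∈ J, 0 ≤ e j := by
    intro j hj
    have h2 := hdiv j (hJm j hj)
    have h3 := hmin j hj
    have h4 : e j = ((m - j : ℕ) : ℤ) * (n j * ((M / (m - j) : ℕ) : ℤ) - u) := by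
      rw [he]
      simp only
      rw [← h2]
      push_cast
      ring
    rw [h4]
    apply mul_nonneg (by positivity)
    linarith
  have hej0 : e j0 = 0 := by
    have h2 := hdiv j0 (hJm j0 hj0)
    rw [he]
    simp only
    rw [hu]
    calc (M : ℤ) * n j0 - n j0 * ((M / (m - j0) : ℕ) : ℤ) * ((m - j0 : ℕ) : ℤ)
        = n j0 * ((M : ℤ) - ((m - j0 : ℕ) : ℤ) * ((M / (m - j0) : ℕ) : ℤ)) := by ring
      _ = 0 := by rw [h2]; ring
  set b : ℕ → ℂ → ℂ := fun j s => if j ∈ J then s ^ (e j).toNat * g j (s ^ M) else 0 with hb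
  have hban : ∀ j, AnalyticAt ℂ (b j) 0 := by
    intro j
    by_cases hj : j ∈ J
    · simp only [hb, hj, if_true]
      apply AnalyticAt.mul (by fun_prop)
      have h2 : AnalyticAt ℂ (g j) ((fun s : ℂ => s ^ M) 0) := by
        simpa [zero_pow (by omega : M ≠ 0)] using (hng j hj).1
      exact AnalyticAt.comp (g := g j) (f := fun s : ℂ => s ^ M) h2 (by fun_prop)
    · simp only [hb, hj, if_false]
      exact analyticAt_const
  have heq : ∀ j < m, ∀ᶠ s in 𝓝[≠] (0 : ℂ), a j (s ^ M) = (s ^ u) ^ (m - j) * b j s := by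
    intro j hj
    by_cases hjJ : j ∈ J
    · filter_upwards [(tendsto_pow_punct hM1).eventually (hng j hjJ).2.2, self_mem_nhdsWithin]
        with s hs hs0
      have hs0' : s ≠ 0 := hs0
      rw [hs]
      simp only [hb, hjJ, if_true]
      have h3 : (s ^ M) ^ (n j) = (s ^ u) ^ (m - j) * s ^ (e j).toNat := by
        rw [← zpow_natCast, ← zpow_natCast, ← zpow_natCast, ← zpow_mul, ← zpow_mul,
          Int.toNat_of_nonneg (he0 j hjJ), ← zpow_add₀ hs0']
        congr 1
        rw [he]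
        ring
      rw [h3]
      ring
    · have h3 : meromorphicOrderAt (a j) 0 = ⊤ := by
        by_contra h
        exact hjJ (Finset.mem_filter.2 ⟨Finset.mem_range.2 hj, h⟩)
      rw [meromorphicOrderAt_eq_top_iff] at h3
      filter_upwards [(tendsto_pow_punct hM1).eventually h3] with s hs
      rw [hs]
      simp [hb, hjJ]
  have hall : ∀ᶠ s in 𝓝[≠] (0 : ℂ), ∀ j < m, a j (s ^ M) = (s ^ u) ^ (m - j) * b j s := by
    have := (Finset.eventually_all (Finset.range m)).2
      (fun j hj => heq j (Finset.mem_range.1 hj))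
    filter_upwards [this] with s hs j hj
    exact hs j (Finset.mem_range.2 hj)
  refine ⟨M, u, b, hM1, fun j _ => hban j, hall, ⟨j0, hJm j0 hj0, ?_⟩, ?_⟩
  · simp only [hb, hj0, if_true, hej0]
    simpa [zero_pow (by omega : M ≠ 0)] using (hng j0 hj0).2.1
  · -- continuity
    have h3 : ∀ᶠ s in 𝓝[≠] (0 : ℂ), b (m - 1) s = 0 := by
      filter_upwards [(tendsto_pow_punct hM1).eventually h1, heq (m - 1) (by omega),
        self_mem_nhdsWithin] with s hs hs2 hs0
      have hs0' : s ≠ 0 := hs0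
      rw [hs] at hs2
      have h4 : (s ^ u) ^ (m - (m - 1)) ≠ 0 := pow_ne_zero _ (zpow_ne_zero _ hs0')
      exact (mul_eq_zero.1 hs2.symm).resolve_left h4
    have h4 : Tendsto (b (m - 1)) (𝓝[≠] 0) (𝓝 (b (m - 1) 0)) :=
      (hban (m - 1)).continuousAt.tendsto.mono_left nhdsWithin_le_nhds
    have h5 : Tendsto (b (m - 1)) (𝓝[≠] 0) (𝓝 0) :=
      (tendsto_congr' h3).2 tendsto_const_nhds
    exact tendsto_nhds_unique h4 h5

/-- The induction step for centred polynomials. -/
theorem newton_centred {m : ℕ} (hm : 1 ≤ m)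
    (IH : ∀ k < m, ∀ a : ℕ → ℂ → ℂ, (∀ j < k, MeromorphicAt (a j) 0) →
      ∃ (N : ℕ) (L : List (ℂ → ℂ)), 1 ≤ N ∧ (∀ f ∈ L, MeromorphicAt f 0) ∧
        ∀ᶠ s in 𝓝[≠] (0 : ℂ), Pm k (fun j => a j (s ^ N)) = PL L s)
    (a : ℕ → ℂ → ℂ) (ha : ∀ j < m, MeromorphicAt (a j) 0)
    (h1 : ∀ᶠ s in 𝓝[≠] (0 : ℂ), a (m - 1) s = 0) :
    ∃ (N : ℕ) (L : List (ℂ → ℂ)), 1 ≤ N ∧ (∀ f ∈ L, MeromorphicAt f 0) ∧
      ∀ᶠ s in 𝓝[≠] (0 : ℂ), Pm m (fun j => a j (s ^ N)) = PL L s := by
  by_cases hne : ∃ j < m, meromorphicOrderAt (a j) 0 ≠ ⊤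
  · obtain ⟨M, u, b, hM, hb, hab, ⟨j0, hj0, hbj0⟩, hb1⟩ := exists_norm hm ha hne h1
    set q : ℂ[X] := Pm m (fun j => b j 0) with hq
    have hqm : q.Monic := Pm_monic _ _
    have hqd : q.natDegree = m := Pm_natDegree _ _
    obtain ⟨c, hc⟩ := IsAlgClosed.exists_root q (by
      rw [degree_eq_natDegree hqm.ne_zero, hqd]
      exact_mod_cast (by omega : m ≠ 0))
    obtain ⟨B, hBq, hBd⟩ := q.exists_eq_pow_rootMultiplicity_mul_and_not_dvd hqm.ne_zero c
    set k := q.rootMultiplicity c with hk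
    have hk1 : 1 ≤ k := (rootMultiplicity_pos hqm.ne_zero).2 hc
    have hAm : ((X - C c) ^ k : ℂ[X]).Monic := (monic_X_sub_C c).pow k
    have hAd : ((X - C c) ^ k : ℂ[X]).natDegree = k := by
      rw [(monic_X_sub_C c).natDegree_pow, natDegree_X_sub_C, mul_one]
    have hBm : B.Monic := by
      have : ((X - C c) ^ k * B).Monic := by rw [← hBq]; exact hqm
      exact hAm.of_mul_monic_left this
    have hdeg : m = k + B.natDegree := by
      rw [← hqd, hBq, hAm.natDegree_mul hBm, hAd]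
    have hB1 : 1 ≤ B.natDegree := by
      by_contra hcon
      have h0 : B.natDegree = 0 := by omega
      have hB : B = 1 := eq_one_of_monic_natDegree_zero hBm h0
      have hmk : m = k := by omega
      rw [hB, mul_one, ← hmk] at hBq
      have h2 : q.coeff (m - 1) = 0 := by
        rw [hq, Pm_coeff _ _ _ (by omega)]
        exact hb1
      rw [hBq, sub_eq_add_neg, ← C_neg, coeff_X_add_C_pow, show m - (m - 1) = 1 by omega,
        pow_one] at h2
      have hc0 : c = 0 := by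
        have h3 : ((m.choose (m - 1) : ℕ) : ℂ) ≠ 0 := by
          exact_mod_cast (Nat.choose_pos (by omega)).ne'
        have := (mul_eq_zero.1 h2).resolve_right h3
        simpa using this
      have h3 : q.coeff j0 = b j0 0 := by rw [hq, Pm_coeff _ _ _ hj0]
      rw [hBq, hc0, C_0, sub_zero, coeff_X_pow, if_neg (by omega)] at h3
      exact hbj0 h3.symm
    have hcop : IsCoprime ((X - C c) ^ k) B :=
      ((irreducible_X_sub_C c).coprime_iff_not_dvd.2 hBd).pow_left
    set l := B.natDegree with hl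
    obtain ⟨α, β, hα, hβ, hfac⟩ := local_fac hAm hBm hAd rfl hcop (f := b)
      (fun j hj => hb j (by omega)) (by rw [← hBq, hq, ← hdeg])
    obtain ⟨N₁, L₁, hN₁, hL₁, hp₁⟩ := IH k (by omega) α (fun j _ => (hα j).meromorphicAt)
    obtain ⟨N₂, L₂, hN₂, hL₂, hp₂⟩ := IH l (by omega) β (fun j _ => (hβ j).meromorphicAt)
    have hmt : ∀ N : ℕ, ∀ f : ℂ → ℂ, MeromorphicAt f 0 → 1 ≤ N →
        MeromorphicAt (fun s => (s ^ (N₁ * N₂)) ^ u * f (s ^ N)) 0 := by
      intro N f hf hN
      apply MeromorphicAt.mul _ (mer_pow hf hN)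
      exact (MeromorphicAt.pow (MeromorphicAt.id 0) _).zpow _
    refine ⟨N₁ * N₂ * M, L₁.map (fun f s => (s ^ (N₁ * N₂)) ^ u * f (s ^ N₂))
      ++ L₂.map (fun f s => (s ^ (N₁ * N₂)) ^ u * f (s ^ N₁)), ?_, ?_, ?_⟩
    · exact Nat.mul_pos (Nat.mul_pos hN₁ hN₂) hM
    · intro f hf
      rcases List.mem_append.1 hf with h | h
      · obtain ⟨f', hf', rfl⟩ := List.mem_map.1 h
        exact hmt N₂ f' (hL₁ f' hf') hN₂
      · obtain ⟨f', hf', rfl⟩ := List.mem_map.1 h
        exact hmt N₁ f' (hL₂ f' hf') hN₁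
    · have hN12 : 1 ≤ N₁ * N₂ := Nat.mul_pos hN₁ hN₂
      filter_upwards [(tendsto_pow_punct hN12).eventually hab,
        (tendsto_pow_punct hN12).eventually (hfac.filter_mono nhdsWithin_le_nhds),
        (tendsto_pow_punct hN₂).eventually hp₁, (tendsto_pow_punct hN₁).eventually hp₂]
        with s e1 e2 e3 e4
      rw [PL_append, PL_map, PL_map, ← scale_PL L₁, ← scale_PL L₂,
        ← mul_scaleRoots_of_noZeroDivisors, ← e3, ← e4]
      have e5 : (s ^ N₂) ^ N₁ = s ^ (N₁ * N₂) := by rw [← pow_mul, mul_comm]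
      have e6 : (s ^ N₁) ^ N₂ = s ^ (N₁ * N₂) := by rw [← pow_mul]
      simp only [e5, e6]
      rw [← e2, ← hdeg, ← scale_Pm]
      apply Pm_congr
      intro j hj
      rw [← e1 j hj, pow_mul]
  · push Not at hne
    refine ⟨1, List.replicate m 0, le_rfl, ?_, ?_⟩
    · intro f hf
      rw [List.eq_of_mem_replicate hf]
      exact MeromorphicAt.const 0 0
    · have hall : ∀ᶠ s in 𝓝[≠] (0 : ℂ), ∀ j < m, a j s = 0 := by
        have := (Finset.eventually_all (l := 𝓝[≠] (0 : ℂ)) (p := fun j s => a j s = 0)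
          (Finset.range m)).2
          (fun j hj => meromorphicOrderAt_eq_top_iff.1 (hne j (Finset.mem_range.1 hj)))
        filter_upwards [this] with s hs j hj
        exact hs j (Finset.mem_range.2 hj)
      filter_upwards [hall] with s hs
      have e1 : PL (List.replicate m 0) s = X ^ m := by
        simp [PL, List.map_replicate]
      rw [e1]
      apply monic_ext (m := m) (Pm_monic _ _) (monic_X_pow m) (Pm_natDegree _ _)
        (natDegree_X_pow m)
      intro j hj
      rw [Pm_coeff _ _ _ hj, coeff_X_pow, if_neg (by omega), pow_one, hs j hj]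

theorem newton (m : ℕ) : ∀ a : ℕ → ℂ → ℂ, (∀ j < m, MeromorphicAt (a j) 0) →
    ∃ (N : ℕ) (L : List (ℂ → ℂ)), 1 ≤ N ∧ (∀ f ∈ L, MeromorphicAt f 0) ∧
      ∀ᶠ s in 𝓝[≠] (0 : ℂ), Pm m (fun j => a j (s ^ N)) = PL L s := by
  induction m using Nat.strong_induction_on with
  | _ m IH =>
  intro a ha
  rcases Nat.eq_zero_or_pos m with h0 | hm
  · subst h0
    refine ⟨1, [], le_rfl, by simp, ?_⟩
    filter_upwards with s
    simp [Pm, PL]
  have hm0 : (m : ℂ) ≠ 0 := by exact_mod_cast hm.ne'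
  set c : ℂ → ℂ := fun s => -(a (m - 1) s) / m with hc
  have hcm : MeromorphicAt c 0 := by
    have := ha (m - 1) (by omega)
    rw [hc]
    exact (this.neg).div (MeromorphicAt.const _ _)
  set p : ℂ → ℂ[X] := fun s => (Pm m (fun j => a j s)).comp (X + C (c s)) with hp
  have hpm : ∀ s, (p s).Monic := fun s => (Pm_monic _ _).comp_X_add_C _
  have hpd : ∀ s, (p s).natDegree = m := by
    intro s
    rw [hp]
    simp only
    rw [natDegree_comp, Pm_natDegree, natDegree_X_add_C, mul_one]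
  have hcoef : ∀ s n, (p s).coeff n = (c s) ^ (m - n) * (m.choose n : ℂ)
      + ∑ j ∈ Finset.range m, a j s * ((c s) ^ (j - n) * (j.choose n : ℂ)) := by
    intro s n
    rw [hp]
    simp only
    rw [Pm, add_comp, pow_comp, X_comp, coeff_add, coeff_X_add_C_pow, Polynomial.sum_comp,
      finsetSum_coeff]
    congr 1
    apply Finset.sum_congr rfl
    intro j _
    rw [mul_comp, C_comp, pow_comp, X_comp, coeff_C_mul, coeff_X_add_C_pow]
  set a' : ℕ → ℂ → ℂ := fun n s => (p s).coeff n with ha'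
  have ha'm : ∀ n < m, MeromorphicAt (a' n) 0 := by
    intro n _
    have e : a' n = fun s => (c s) ^ (m - n) * (m.choose n : ℂ)
      + ∑ j ∈ Finset.range m, a j s * ((c s) ^ (j - n) * (j.choose n : ℂ)) := by
      funext s
      exact hcoef s n
    rw [e]
    apply MeromorphicAt.add
    · exact (hcm.pow _).mul (MeromorphicAt.const _ _)
    · apply MeromorphicAt.fun_sum
      intro j hj
      exact (ha j (Finset.mem_range.1 hj)).mul ((hcm.pow _).mul (MeromorphicAt.const _ _))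
  have h1 : ∀ s, a' (m - 1) s = 0 := by
    intro s
    rw [ha']
    simp only
    rw [hcoef, Finset.sum_eq_single (m - 1)]
    · rw [show m - (m - 1) = 1 by omega, pow_one, Nat.sub_self, pow_zero, Nat.choose_self]
      have : (m.choose (m - 1) : ℂ) = m := by
        have : m.choose (m - 1) = m := by
          rw [Nat.choose_symm_of_eq_add (show m = (m - 1) + 1 by omega)]
          simp
        rw [this]
      rw [this, hc]
      field_simp
      push_cast
      ring
    · intro j hj hjm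
      have := Finset.mem_range.1 hj
      rw [Nat.choose_eq_zero_of_lt (by omega)]
      simp
    · intro h
      exact absurd (Finset.mem_range.2 (by omega)) h
  obtain ⟨N, L, hN, hL, hfac⟩ := newton_centred hm IH a' ha'm
    (Eventually.of_forall h1)
  refine ⟨N, L.map (fun f s => f s + c (s ^ N)), hN, ?_, ?_⟩
  · intro f hf
    obtain ⟨f', hf', rfl⟩ := List.mem_map.1 hf
    exact (hL f' hf').add (mer_pow hcm hN)
  · filter_upwards [hfac] with s hs
    have e1 : Pm m (fun j => a' j (s ^ N)) = p (s ^ N) := by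
      rw [Pm_of_monic (hpm (s ^ N)), hpd]
    have e2 : Pm m (fun j => a j (s ^ N)) = (p (s ^ N)).comp (X - C (c (s ^ N))) := by
      rw [hp]
      simp only
      rw [comp_assoc, add_comp, X_comp, C_comp, sub_add_cancel, comp_X]
    rw [e2, ← e1, hs, PL_map]
    have e3 : ∀ L : List (ℂ → ℂ), (PL L s).comp (X - C (c (s ^ N)))
        = (L.map (fun f => X - C (f s + c (s ^ N)))).prod := by
      intro L
      induction L with
      | nil => simp [PL]
      | cons f L ih =>
        have : PL (f :: L) s = (X - C (f s)) * PL L s := by simp [PL]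
        rw [this, mul_comp, ih, List.map_cons, List.prod_cons, sub_comp, X_comp, C_comp, C_add]
        ring
    exact e3 L

end Pool.Agent.H55.N2
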