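import Pool.Agent.H55.N2.Newton

/-!
Laurent expansions at infinity and the Puiseux factorisation of a polynomial in two variables.
-/

open Polynomial Filter Topology

namespace Pool.Agent.H55.N2

theorem laurent {f : ℂ → ℂ} (hf : MeromorphicAt f 0) : ∃ (g : ℂ[X]) (C : ℝ), 0 ≤ C ∧
    ∀ᶠ s in 𝓝[≠] (0 : ℂ), ‖f s - g.eval s⁻¹‖ ≤ C * ‖s‖ := by
  obtain ⟨n, hn⟩ := hf
  obtain ⟨p, hp⟩ := hn
  have hO := hp.isBigO_sub_partialSum_pow (n + 1)
  obtain ⟨C, hC⟩ := hO.bound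
  refine ⟨∑ k ∈ Finset.range (n + 1), Polynomial.C (p.coeff k) * X ^ (n - k), |C|, abs_nonneg _, ?_⟩
  filter_upwards [hC.filter_mono nhdsWithin_le_nhds, self_mem_nhdsWithin] with s hs hs0
  have hs0' : s ≠ 0 := hs0
  have hsn : (0 : ℝ) < ‖s‖ := norm_pos_iff.2 hs0'
  have e1 : (∑ k ∈ Finset.range (n + 1), Polynomial.C (p.coeff k) * X ^ (n - k) : ℂ[X]).eval s⁻¹
      = (s⁻¹) ^ n * p.partialSum (n + 1) s := by
    rw [eval_finsetSum, FormalMultilinearSeries.partialSum, Finset.mul_sum]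
    apply Finset.sum_congr rfl
    intro k hk
    have hk' : k ≤ n := by have := Finset.mem_range.1 hk; omega
    rw [eval_mul, eval_C, eval_pow, eval_X, FormalMultilinearSeries.apply_eq_pow_smul_coeff,
      smul_eq_mul]
    have : (s⁻¹) ^ n = (s⁻¹) ^ (n - k) * (s⁻¹) ^ k := by
      rw [← pow_add]; congr 1; omega
    rw [this, inv_pow s k]
    field_simp
  have e2 : f s = (s⁻¹) ^ n * (s ^ n * f s) := by
    rw [inv_pow]
    field_simp
  rw [e1, e2, ← mul_sub, norm_mul, norm_pow, norm_inv]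
  simp only [zero_add, sub_zero, smul_eq_mul] at hs
  calc ‖s‖⁻¹ ^ n * ‖s ^ n * f s - p.partialSum (n + 1) s‖
      ≤ ‖s‖⁻¹ ^ n * (C * ‖‖s‖ ^ (n + 1)‖) := by
        apply mul_le_mul_of_nonneg_left hs (by positivity)
    _ = C * ‖s‖ := by
        rw [Real.norm_of_nonneg (by positivity), pow_succ, inv_pow]
        field_simp
    _ ≤ |C| * ‖s‖ := mul_le_mul_of_nonneg_right (le_abs_self C) (norm_nonneg _)

theorem mer_eval (r : ℂ[X]) : MeromorphicAt (fun s : ℂ => r.eval s⁻¹) 0 := by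
  have e : (fun s : ℂ => r.eval s⁻¹)
      = fun s : ℂ => ∑ i ∈ Finset.range (r.natDegree + 1), r.coeff i * (s⁻¹) ^ i := by
    funext s
    exact eval_eq_sum_range _
  rw [e]
  apply MeromorphicAt.fun_sum
  intro i _
  exact (MeromorphicAt.const _ _).mul (((MeromorphicAt.id 0).inv).pow i)

/-- nonzero at infinity -/
theorem eval_ne {r : ℂ[X]} (hr : r ≠ 0) : ∀ᶠ s in 𝓝[≠] (0 : ℂ), r.eval s⁻¹ ≠ 0 := by
  classical
  set S : ℝ := ∑ z ∈ r.roots.toFinset, ‖z‖ with hS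
  have hS0 : 0 ≤ S := Finset.sum_nonneg (fun _ _ => norm_nonneg _)
  have h1 : ∀ᶠ s in 𝓝 (0 : ℂ), ‖s‖ < 1 / (S + 1) := by
    have : Tendsto (fun s : ℂ => ‖s‖) (𝓝 0) (𝓝 0) := by
      simpa using (continuous_norm.tendsto (0 : ℂ))
    exact this.eventually (gt_mem_nhds (by positivity))
  filter_upwards [h1.filter_mono nhdsWithin_le_nhds, self_mem_nhdsWithin] with s hs hs0 h0
  have hs0' : s ≠ 0 := hs0
  have hmem : s⁻¹ ∈ r.roots.toFinset := by
    rw [Multiset.mem_toFinset, mem_roots hr]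
    exact h0
  have h2 : ‖s⁻¹‖ ≤ S := Finset.single_le_sum (f := fun z : ℂ => ‖z‖)
    (fun _ _ => norm_nonneg _) hmem
  have hsn : (0 : ℝ) < ‖s‖ := norm_pos_iff.2 hs0'
  rw [lt_div_iff₀ (by positivity)] at hs
  have h3 : ‖s‖ * ‖s⁻¹‖ = 1 := by
    rw [norm_inv]
    exact mul_inv_cancel₀ hsn.ne'
  have h4 : ‖s‖ * ‖s⁻¹‖ ≤ ‖s‖ * S := mul_le_mul_of_nonneg_left h2 hsn.le
  nlinarith

theorem PL_eval (L : List (ℂ → ℂ)) (s x : ℂ) :
    (PL L s).eval x = ∏ i : Fin L.length, (x - (L.get i) s) := by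
  have h1 : (PL L s).eval x = (L.map (fun f => x - f s)).prod := by
    induction L with
    | nil => simp [PL]
    | cons f L ih =>
      have : PL (f :: L) s = (X - C (f s)) * PL L s := by simp [PL]
      rw [this, eval_mul, ih, List.map_cons, List.prod_cons, eval_sub, eval_X, eval_C]
  rw [h1]
  have h2 := List.prod_ofFn (f := fun i : Fin L.length => x - (L.get i) s)
  rw [← h2]
  congr 1
  apply List.ext_get
  · simp
  · intro n h1 h2
    simp

theorem Pm_eval (m : ℕ) (a : ℕ → ℂ) (x : ℂ) :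
    (Pm m a).eval x = x ^ m + ∑ j ∈ Finset.range m, a j * x ^ j := by
  rw [Pm, eval_add, eval_pow, eval_X, eval_finsetSum]
  congr 1
  apply Finset.sum_congr rfl
  intro j _
  rw [eval_mul, eval_C, eval_pow, eval_X]

/-- The Puiseux factorisation at infinity. -/
theorem puis (F : MvPolynomial (Fin 2) ℂ) (hF : F ≠ 0) :
    ∃ (N d : ℕ) (g : Fin d → Polynomial ℂ) (ε : Fin d → ℂ → ℂ) (a : Polynomial ℂ) (R K : ℝ),
      1 ≤ N ∧ a ≠ 0 ∧ 1 ≤ R ∧ (∀ i, ∀ q : ℂ, R < ‖q‖ → ‖ε i q‖ ≤ K / ‖q‖) ∧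
      ∀ q : ℂ, R < ‖q‖ → ∀ x : ℂ, MvPolynomial.eval ![x, q ^ N] F
        = a.eval (q ^ N) * ∏ i, (x - (g i).eval q - ε i q) := by
  set G : ℂ[X][X] := MvPolynomial.aeval ![X, C X] F with hG
  have hGe : ∀ x t : ℂ, MvPolynomial.eval ![x, t] F = (G.map (evalRingHom t)).eval x := by
    intro x t
    have : (MvPolynomial.aeval ![x, t] : MvPolynomial (Fin 2) ℂ →ₐ[ℂ] ℂ) F
        = (G.map (evalRingHom t)).eval x := by
      rw [hG]
      have h1 : ((evalRingHom x).comp ((mapRingHom (evalRingHom t)).comp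
          ((MvPolynomial.aeval ![X, C X] : MvPolynomial (Fin 2) ℂ →ₐ[ℂ] ℂ[X][X]) :
            MvPolynomial (Fin 2) ℂ →+* ℂ[X][X])))
          = ((MvPolynomial.aeval ![x, t] : MvPolynomial (Fin 2) ℂ →ₐ[ℂ] ℂ) :
            MvPolynomial (Fin 2) ℂ →+* ℂ) := by
        apply MvPolynomial.ringHom_ext
        · intro r
          simp [Polynomial.algebraMap_apply]
        · intro i
          fin_cases i
          · simp
          · simp
      have h2 := congrArg (fun φ => φ F) h1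
      exact h2.symm
    rw [← this]
    rfl
  have hG0 : G ≠ 0 := by
    intro h
    apply hF
    apply MvPolynomial.funext
    intro v
    have hv : v = ![v 0, v 1] := by
      funext i
      fin_cases i <;> rfl
    rw [hv, hGe, h]
    simp
  set m := G.natDegree with hm
  set A : ℂ[X] := G.leadingCoeff with hA
  have hA0 : A ≠ 0 := leadingCoeff_ne_zero.2 hG0
  obtain ⟨N, L, hN, hL, hfac⟩ := newton m (fun j s => (G.coeff j).eval s⁻¹ / A.eval s⁻¹)
    (fun j _ => (mer_eval _).div (mer_eval _))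
  have hlau : ∀ i : Fin L.length, ∃ (g : ℂ[X]) (C : ℝ), 0 ≤ C ∧
      ∀ᶠ s in 𝓝[≠] (0 : ℂ), ‖(L.get i) s - g.eval s⁻¹‖ ≤ C * ‖s‖ :=
    fun i => laurent (hL _ (List.get_mem L i))
  choose g K hK0 hK using hlau
  have hall : ∀ᶠ s in 𝓝[≠] (0 : ℂ), (∀ i, ‖(L.get i) s - (g i).eval s⁻¹‖ ≤ K i * ‖s‖) ∧
      Pm m (fun j => (G.coeff j).eval (s ^ N)⁻¹ / A.eval (s ^ N)⁻¹) = PL L s ∧
      A.eval (s ^ N)⁻¹ ≠ 0 := by
    filter_upwards [eventually_all.2 hK, hfac, (tendsto_pow_punct hN).eventually (eval_ne hA0)]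
      with s h1 h2 h3
    exact ⟨h1, h2, h3⟩
  rw [eventually_nhdsWithin_iff, Metric.eventually_nhds_iff] at hall
  obtain ⟨δ, hδ, hall⟩ := hall
  refine ⟨N, L.length, g, fun i q => (L.get i) q⁻¹ - (g i).eval q, A, max 1 (1 / δ), ∑ i, K i, hN,
    hA0, le_max_left _ _, ?_, ?_⟩
  · intro i q hq
    have hq1 : 0 < ‖q‖ := lt_trans (by positivity) (lt_of_le_of_lt (le_max_left _ _) hq)
    have hq2 : ‖q⁻¹‖ < δ := by
      rw [norm_inv, inv_lt_comm₀ hq1 hδ]
      have := lt_of_le_of_lt (le_max_right _ _) hq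
      rwa [one_div] at this
    have hq0 : q ≠ 0 := norm_pos_iff.1 hq1
    have h1 := (hall (by rwa [dist_zero_right]) (inv_ne_zero hq0)).1 i
    rw [inv_inv, norm_inv] at h1
    refine h1.trans ?_
    rw [div_eq_mul_inv]
    apply mul_le_mul_of_nonneg_right _ (by positivity)
    exact Finset.single_le_sum (f := K) (fun j _ => hK0 j) (Finset.mem_univ i)
  · intro q hq x
    have hq1 : 0 < ‖q‖ := lt_trans (by positivity) (lt_of_le_of_lt (le_max_left _ _) hq)
    have hq2 : ‖q⁻¹‖ < δ := by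
      rw [norm_inv, inv_lt_comm₀ hq1 hδ]
      have := lt_of_le_of_lt (le_max_right _ _) hq
      rwa [one_div] at this
    have hq0 : q ≠ 0 := norm_pos_iff.1 hq1
    obtain ⟨-, h2, h3⟩ := hall (by rwa [dist_zero_right]) (inv_ne_zero hq0)
    have e1 : (q⁻¹ ^ N)⁻¹ = q ^ N := by rw [inv_pow, inv_inv]
    rw [e1] at h3
    simp only [e1] at h2
    have h4 : ∏ i : Fin L.length, (x - (g i).eval q - ((L.get i) q⁻¹ - (g i).eval q))
        = (PL L q⁻¹).eval x := by
      rw [PL_eval]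
      apply Finset.prod_congr rfl
      intro i _
      ring
    rw [h4, ← h2, hGe, Pm_eval, eval_eq_sum_range' (n := m + 1)
      (lt_of_le_of_lt (natDegree_map_le) (Nat.lt_succ_self _)), Finset.sum_range_succ]
    have e5 : (G.map (evalRingHom (q ^ N))).coeff m = A.eval (q ^ N) := by
      rw [coeff_map, hA, hm]
      rfl
    rw [e5, mul_add, Finset.mul_sum, add_comm]
    congr 1
    apply Finset.sum_congr rfl
    intro j _
    rw [coeff_map, coe_evalRingHom]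
    field_simp

end Pool.Agent.H55.N2
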